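import Mathlib
import Pool.Agent.K4W.StmtsA
import Pool.Agent.Helper17_HUA.Kul
import Pool.Agent.Helper78_HUA.Vbo

set_option autoImplicit false

/-! Squad K4W, row AVD: the second derivative test on a block. -/

namespace Pool.Agent.K4W.H31

open Pool.Agent.Helper69_Weyl Pool.Agent.VM Pool.Agent.VM.H78 Pool.Agent.K4W

/-- the second derivative test for a sequence -/
theorem vdc2 (kul : KulStmt) {a b : ℤ} {g : ℤ → ℝ} {l R : ℝ} (hl : 0 < l) (hl4 : l ≤ 1 / 4)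
    (hR0 : 0 ≤ R)
    (hgrow : ∀ m n : ℤ, a ≤ m → m ≤ n → n ≤ b →
      l * ((n : ℝ) - m) ≤ (g (n + 1) - g n) - (g (m + 1) - g m))
    (hR : (g (b + 1) - g b) - (g (a + 1) - g a) ≤ R) :
    ‖∑ n ∈ Finset.Icc a b, ee (g n)‖ ≤ (R + 2) * (6 / √l) := by
  classical
  rcases lt_or_ge b a with hab | hab
  · rw [Finset.Icc_eq_empty (by omega), Finset.sum_empty, norm_zero]
    positivity
  obtain ⟨D, hD⟩ : ∃ D : ℤ → ℝ, D = fun n : ℤ => g (n + 1) - g n := ⟨_, rfl⟩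
  have hDn : ∀ n, D n = g (n + 1) - g n := fun n => by rw [hD]
  obtain ⟨δ, hδ⟩ : ∃ δ, δ = √l := ⟨_, rfl⟩
  have hδ0 : 0 < δ := by rw [hδ]; exact Real.sqrt_pos.2 hl
  have hδsq : δ * δ = l := by rw [hδ]; exact Real.mul_self_sqrt hl.le
  have hδ2 : δ ≤ 1 / 2 := by
    by_contra h
    push Not at h
    nlinarith
  have hmono : ∀ m n : ℤ, a ≤ m → m ≤ n → n ≤ b → D m ≤ D n := by
    intro m n h1 h2 h3
    have h4 : (m : ℝ) ≤ n := by exact_mod_cast h2
    have h6 := hgrow m n h1 h2 h3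
    rw [← hDn, ← hDn] at h6
    have h7 : 0 ≤ l * ((n : ℝ) - m) := mul_nonneg hl.le (by linarith)
    linarith
  obtain ⟨f, hf⟩ : ∃ f : ℤ → ℂ, f = fun n : ℤ => ee (g n) := ⟨_, rfl⟩
  have hf1 : ∀ n, ‖f n‖ = 1 := by
    intro n
    rw [hf]
    exact norm_ee _
  obtain ⟨Z, hZ⟩ : ∃ Z : Finset ℤ, Z = Finset.Icc ⌊D a + δ⌋ ⌊D b + δ⌋ := ⟨_, rfl⟩
  have hmaps : ∀ n ∈ Finset.Icc a b, ⌊D n + δ⌋ ∈ Z := by
    intro n hn
    rw [Finset.mem_Icc] at hn
    rw [hZ, Finset.mem_Icc]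
    constructor
    · apply Int.floor_le_floor
      linarith [hmono a n le_rfl hn.1 hn.2]
    · apply Int.floor_le_floor
      linarith [hmono n b hn.1 hn.2 le_rfl]
  have hsum : ∑ n ∈ Finset.Icc a b, f n =
      ∑ z ∈ Z, ∑ n ∈ (Finset.Icc a b).filter (fun n => ⌊D n + δ⌋ = z), f n :=
    (Finset.sum_fiberwise_of_maps_to hmaps f).symm
  have hcardZ : (Z.card : ℝ) ≤ R + 2 := by
    rw [hZ, Int.card_Icc]
    have h1 : (⌊D b + δ⌋ : ℝ) ≤ D b + δ := Int.floor_le _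
    have h2 : D a + δ - 1 < (⌊D a + δ⌋ : ℝ) := Int.sub_one_lt_floor _
    have h3 : ⌊D a + δ⌋ ≤ ⌊D b + δ⌋ := by
      apply Int.floor_le_floor
      linarith [hmono a b le_rfl hab le_rfl]
    have h4 : ((⌊D b + δ⌋ + 1 - ⌊D a + δ⌋).toNat : ℝ) = (⌊D b + δ⌋ : ℝ) + 1 - ⌊D a + δ⌋ := by
      have : ((⌊D b + δ⌋ + 1 - ⌊D a + δ⌋).toNat : ℤ) = ⌊D b + δ⌋ + 1 - ⌊D a + δ⌋ :=
        Int.toNat_of_nonneg (by omega)
      exact_mod_cast this
    rw [h4]
    have h5 : D b - D a ≤ R := by rw [hDn, hDn]; exact hR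
    linarith
  -- the two parts of a fibre
  have hpart : ∀ z : ℤ,
      ‖∑ n ∈ (Finset.Icc a b).filter (fun n => ⌊D n + δ⌋ = z), f n‖ ≤ 6 / δ := by
    intro z
    rw [← Finset.sum_filter_add_sum_filter_not _ (fun n => D n < z + δ)]
    obtain ⟨A, hA⟩ : ∃ A, A = ((Finset.Icc a b).filter
      (fun n => ⌊D n + δ⌋ = z)).filter (fun n => D n < z + δ) := ⟨_, rfl⟩
    obtain ⟨B, hB⟩ : ∃ B, B = ((Finset.Icc a b).filter
      (fun n => ⌊D n + δ⌋ = z)).filter (fun n => ¬ D n < z + δ) := ⟨_, rfl⟩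
    rw [← hA, ← hB]
    have hmemA : ∀ n, n ∈ A ↔ (a ≤ n ∧ n ≤ b) ∧ (z : ℝ) - δ ≤ D n ∧ D n < z + δ := by
      intro n
      rw [hA, Finset.mem_filter, Finset.mem_filter, Finset.mem_Icc, Int.floor_eq_iff]
      constructor
      · rintro ⟨⟨h1, h2, h3⟩, h4⟩
        exact ⟨h1, by linarith, h4⟩
      · rintro ⟨h1, h2, h3⟩
        exact ⟨⟨h1, by linarith, by linarith⟩, h3⟩
    have hmemB : ∀ n, n ∈ B ↔ (a ≤ n ∧ n ≤ b) ∧ (z : ℝ) + δ ≤ D n ∧ D n < z + 1 - δ := by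
      intro n
      rw [hB, Finset.mem_filter, Finset.mem_filter, Finset.mem_Icc, Int.floor_eq_iff, not_lt]
      constructor
      · rintro ⟨⟨h1, h2, h3⟩, h4⟩
        exact ⟨h1, h4, by linarith⟩
      · rintro ⟨h1, h2, h3⟩
        exact ⟨⟨h1, by linarith, by linarith⟩, h2⟩
    have hAn : ‖∑ n ∈ A, f n‖ ≤ 3 / δ := by
      refine (norm_sum_le _ _).trans ?_
      rw [Finset.sum_congr rfl (fun n _ => hf1 n), Finset.sum_const, nsmul_eq_mul, mul_one]
      rcases A.eq_empty_or_nonempty with h0 | hne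
      · rw [h0, Finset.card_empty]
        push_cast
        positivity
      · have hI := ordc A (by
          intro x hx y hy w h1 h2
          rw [hmemA] at hx hy ⊢
          refine ⟨⟨by omega, by omega⟩, ?_, ?_⟩
          · linarith [hmono x w hx.1.1 h1 (by omega), hx.2.1]
          · linarith [hmono w y (by omega) h2 hy.1.2, hy.2.2]) hne
        have h1 := (hmemA _).1 (Finset.min'_mem A hne)
        have h2 := (hmemA _).1 (Finset.max'_mem A hne)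
        obtain ⟨lo, hlo⟩ : ∃ lo, lo = A.min' hne := ⟨_, rfl⟩
        obtain ⟨hi, hhi⟩ : ∃ hi, hi = A.max' hne := ⟨_, rfl⟩
        have hle : lo ≤ hi := by
          rw [hlo, hhi]
          exact Finset.min'_le_max' A hne
        rw [← hlo] at h1
        rw [← hhi] at h2
        have h3 : (A.card : ℝ) = (hi : ℝ) - lo + 1 := by
          rw [hI, Int.card_Icc, ← hlo, ← hhi]
          have : ((hi + 1 - lo).toNat : ℤ) = hi + 1 - lo := Int.toNat_of_nonneg (by omega)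
          have h4 : ((hi + 1 - lo).toNat : ℝ) = (hi : ℝ) + 1 - lo := by exact_mod_cast this
          rw [h4]
          ring
        rw [h3]
        have h6 := hgrow lo hi h1.1.1 hle h2.1.2
        rw [← hDn, ← hDn] at h6
        have h7 : l * ((hi : ℝ) - lo) ≤ 2 * δ := by linarith [h1.2.1, h2.2.2]
        have h8 : δ * ((hi : ℝ) - lo) ≤ 2 := by
          have h9 : δ * (δ * ((hi : ℝ) - lo)) ≤ δ * 2 := by
            calc δ * (δ * ((hi : ℝ) - lo)) = l * ((hi : ℝ) - lo) := by rw [← hδsq]; ring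
              _ ≤ 2 * δ := h7
              _ = δ * 2 := by ring
          exact le_of_mul_le_mul_left h9 hδ0
        rw [le_div_iff₀ hδ0]
        nlinarith
    have hBn : ‖∑ n ∈ B, f n‖ ≤ 3 / δ := by
      rcases B.eq_empty_or_nonempty with h0 | hne
      · rw [h0, Finset.sum_empty, norm_zero]
        positivity
      · have hconv : ∀ x ∈ B, ∀ y ∈ B, ∀ w, x ≤ w → w ≤ y → w ∈ B := by
          intro x hx y hy w h1 h2
          rw [hmemB] at hx hy ⊢
          refine ⟨⟨by omega, by omega⟩, ?_, ?_⟩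
          · linarith [hmono x w hx.1.1 h1 (by omega), hx.2.1]
          · linarith [hmono w y (by omega) h2 hy.1.2, hy.2.2]
        have hI := ordc B hconv hne
        have h1 := (hmemB _).1 (Finset.min'_mem B hne)
        have h1' := (hmemB _).1 (Finset.max'_mem B hne)
        obtain ⟨lo, hlo⟩ : ∃ lo, lo = B.min' hne := ⟨_, rfl⟩
        obtain ⟨hi, hhi⟩ : ∃ hi, hi = B.max' hne := ⟨_, rfl⟩
        rw [← hlo] at h1
        rw [← hhi] at h1'
        have hdiff : ∀ n : ℤ, g (n + 1) - g n = D n := fun n => (hDn n).symm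
        have h2 := kul g lo hi z δ hδ0 hδ2 (by
          left
          intro n hn1 hn2
          have h3 := hdiff (n + 1)
          rw [show n + 1 + 1 = n + 2 by ring] at h3
          rw [hdiff n, h3]
          exact hmono n (n + 1) (by omega) (by omega) (by omega)) (by
          intro n hn1 hn2
          rw [hdiff n]
          have h3 : n ∈ B := by
            rw [hI, Finset.mem_Icc, ← hlo, ← hhi]
            exact ⟨hn1, hn2.le⟩
          rw [hmemB] at h3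
          exact ⟨h3.2.1, h3.2.2.le⟩)
        have h5 : ∑ n ∈ B, f n = ∑ n ∈ Finset.Icc lo hi, ee (g n) := by
          rw [hI, ← hlo, ← hhi, hf]
        rw [h5]
        exact h2
    calc ‖∑ n ∈ A, f n + ∑ n ∈ B, f n‖ ≤ ‖∑ n ∈ A, f n‖ + ‖∑ n ∈ B, f n‖ := norm_add_le _ _
      _ ≤ 3 / δ + 3 / δ := add_le_add hAn hBn
      _ = _ := by ring
  have hfin : ‖∑ n ∈ Finset.Icc a b, f n‖ ≤ (R + 2) * (6 / δ) := by
    rw [hsum]
    refine (norm_sum_le _ _).trans ?_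
    calc ∑ z ∈ Z, ‖∑ n ∈ (Finset.Icc a b).filter (fun n => ⌊D n + δ⌋ = z), f n‖
        ≤ ∑ _z ∈ Z, 6 / δ := Finset.sum_le_sum fun z _ => hpart z
      _ = Z.card * (6 / δ) := by rw [Finset.sum_const, nsmul_eq_mul]
      _ ≤ _ := mul_le_mul_of_nonneg_right hcardZ (by positivity)
  rw [hf, hδ] at hfin
  exact hfin

theorem W_neg (k N : ℕ) (β η : ℝ) : W k N (-β) (-η) = (starRingEnd ℂ) (W k N β η) := by
  unfold W
  rw [map_sum]
  apply Finset.sum_congr rfl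
  intro n _
  rw [conj_ee]
  congr 1
  ring

theorem W_sub (X Y : ℕ) (hXY : X ≤ Y) (β η : ℝ) :
    W 4 Y β η - W 4 X β η =
      ∑ n ∈ Finset.Icc ((X : ℤ) + 1) (Y : ℤ), ee (β * (n : ℝ) ^ 4 + η * (n : ℝ)) := by
  rw [W_int, W_int]
  have h1 : Finset.Icc (1 : ℤ) (Y : ℤ) =
      Finset.Icc (1 : ℤ) (X : ℤ) ∪ Finset.Icc ((X : ℤ) + 1) (Y : ℤ) := by
    ext z
    rw [Finset.mem_union, Finset.mem_Icc, Finset.mem_Icc, Finset.mem_Icc]
    omega
  have h2 : Disjoint (Finset.Icc (1 : ℤ) (X : ℤ)) (Finset.Icc ((X : ℤ) + 1) (Y : ℤ)) := by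
    rw [Finset.disjoint_left]
    intro z hz hz'
    rw [Finset.mem_Icc] at hz hz'
    omega
  rw [h1, Finset.sum_union h2]
  ring

/-- the case `β > 0` -/
theorem avd_pos (kul : KulStmt) (X Y : ℕ) (β η : ℝ) (hX : 1 ≤ X) (hXY : X ≤ Y) (hY : Y ≤ 2 * X)
    (hβ : 0 < β) :
    ‖W 4 Y β η - W 4 X β η‖ ≤ 128 * (√β * (X : ℝ) ^ 2 + 1 / (√β * (X : ℝ))) := by
  have hX0 : (0 : ℝ) < X := by exact_mod_cast hX
  have hX1 : (1 : ℝ) ≤ X := by exact_mod_cast hX
  have hY' : (Y : ℝ) ≤ 2 * X := by exact_mod_cast hY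
  have hXY' : (X : ℝ) ≤ Y := by exact_mod_cast hXY
  obtain ⟨s, hs⟩ : ∃ s, s = √β := ⟨_, rfl⟩
  have hs0 : 0 < s := by rw [hs]; exact Real.sqrt_pos.2 hβ
  have hss : s * s = β := by rw [hs]; exact Real.mul_self_sqrt hβ.le
  rw [← hs]
  rw [W_sub X Y hXY]
  by_cases hcase : 12 * β * (X : ℝ) ^ 2 ≤ 1 / 4
  · -- the second derivative test
    have hl : 0 < 12 * β * (X : ℝ) ^ 2 := by positivity
    have h := vdc2 kul (a := (X : ℤ) + 1) (b := (Y : ℤ))
      (g := fun n : ℤ => β * (n : ℝ) ^ 4 + η * (n : ℝ)) (l := 12 * β * (X : ℝ) ^ 2)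
      (R := 64 * β * (X : ℝ) ^ 3) hl hcase (by positivity) (by
        intro m n h1 h2 h3
        have h4 : (X : ℝ) ≤ m := by exact_mod_cast (by omega : (X : ℤ) ≤ m)
        have h5 : (m : ℝ) ≤ n := by exact_mod_cast h2
        push_cast
        have h6 : (β * ((n : ℝ) + 1) ^ 4 + η * ((n : ℝ) + 1) - (β * (n : ℝ) ^ 4 + η * (n : ℝ))) -
            (β * ((m : ℝ) + 1) ^ 4 + η * ((m : ℝ) + 1) - (β * (m : ℝ) ^ 4 + η * (m : ℝ))) =
            β * (((n : ℝ) - m) * (4 * ((n : ℝ) ^ 2 + n * m + m ^ 2) + 6 * ((n : ℝ) + m) + 4)) := by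
          ring
        rw [h6]
        have h7 : 12 * (X : ℝ) ^ 2 ≤
            4 * ((n : ℝ) ^ 2 + n * m + m ^ 2) + 6 * ((n : ℝ) + m) + 4 := by
          have h8 : (X : ℝ) ≤ n := h4.trans h5
          nlinarith [mul_le_mul h4 h4 hX0.le (hX0.le.trans h4),
            mul_le_mul h8 h8 hX0.le (hX0.le.trans h8), mul_le_mul h8 h4 hX0.le (hX0.le.trans h8)]
        calc 12 * β * (X : ℝ) ^ 2 * ((n : ℝ) - m) = β * (((n : ℝ) - m) * (12 * (X : ℝ) ^ 2)) := by
              ring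
          _ ≤ _ := mul_le_mul_of_nonneg_left (mul_le_mul_of_nonneg_left h7 (by linarith)) hβ.le)
      (by
        push_cast
        have h6 : (β * ((Y : ℝ) + 1) ^ 4 + η * ((Y : ℝ) + 1) - (β * (Y : ℝ) ^ 4 + η * (Y : ℝ))) -
            (β * ((X : ℝ) + 1 + 1) ^ 4 + η * ((X : ℝ) + 1 + 1) -
              (β * ((X : ℝ) + 1) ^ 4 + η * ((X : ℝ) + 1))) =
            β * (4 * (Y : ℝ) ^ 3 + 6 * (Y : ℝ) ^ 2 + 4 * (Y : ℝ) + 1) -
            β * (4 * ((X : ℝ) + 1) ^ 3 + 6 * ((X : ℝ) + 1) ^ 2 + 4 * ((X : ℝ) + 1) + 1) := by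
          ring
        rw [h6]
        have h7 : 4 * (Y : ℝ) ^ 3 + 6 * (Y : ℝ) ^ 2 + 4 * (Y : ℝ) + 1 ≤
            4 * (2 * (X : ℝ)) ^ 3 + 6 * (2 * (X : ℝ)) ^ 2 + 4 * (2 * (X : ℝ)) + 1 := by
          gcongr
        have h8 : 4 * (2 * (X : ℝ)) ^ 3 + 6 * (2 * (X : ℝ)) ^ 2 + 4 * (2 * (X : ℝ)) ≤
            64 * (X : ℝ) ^ 3 := by
          have h9 : (X : ℝ) ^ 2 ≤ (X : ℝ) ^ 3 := pow_le_pow_right₀ hX1 (by norm_num)
          have h10 : (X : ℝ) ≤ (X : ℝ) ^ 3 := by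
            calc (X : ℝ) = (X : ℝ) ^ 1 := (pow_one _).symm
              _ ≤ _ := pow_le_pow_right₀ hX1 (by norm_num)
          nlinarith
        have h11 : β * (4 * (Y : ℝ) ^ 3 + 6 * (Y : ℝ) ^ 2 + 4 * (Y : ℝ) + 1) ≤
            β * (64 * (X : ℝ) ^ 3 + 1) := mul_le_mul_of_nonneg_left (by linarith) hβ.le
        have h12 : β * 1 ≤
            β * (4 * ((X : ℝ) + 1) ^ 3 + 6 * ((X : ℝ) + 1) ^ 2 + 4 * ((X : ℝ) + 1) + 1) :=
          mul_le_mul_of_nonneg_left (by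
            have : 0 ≤ 4 * ((X : ℝ) + 1) ^ 3 + 6 * ((X : ℝ) + 1) ^ 2 + 4 * ((X : ℝ) + 1) := by
              positivity
            linarith) hβ.le
        linarith)
    refine h.trans ?_
    have h13 : √(12 * β * (X : ℝ) ^ 2) = √12 * (s * X) := by
      rw [show 12 * β * (X : ℝ) ^ 2 = 12 * (s * X) ^ 2 by rw [← hss]; ring,
        Real.sqrt_mul (by norm_num), Real.sqrt_sq (by positivity)]
    have h14 : (3 : ℝ) ≤ √12 := by
      rw [show (3 : ℝ) = √9 by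
        rw [show (9 : ℝ) = 3 ^ 2 by norm_num, Real.sqrt_sq (by norm_num)]]
      exact Real.sqrt_le_sqrt (by norm_num)
    have h15 : 6 / √(12 * β * (X : ℝ) ^ 2) ≤ 2 / (s * X) := by
      rw [h13, div_le_div_iff₀ (by positivity) (by positivity)]
      nlinarith [mul_pos hs0 hX0]
    calc (64 * β * (X : ℝ) ^ 3 + 2) * (6 / √(12 * β * (X : ℝ) ^ 2))
        ≤ (64 * β * (X : ℝ) ^ 3 + 2) * (2 / (s * X)) :=
          mul_le_mul_of_nonneg_left h15 (by positivity)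
      _ = 128 * (s * (X : ℝ) ^ 2) + 4 * (1 / (s * X)) := by
          rw [← hss]
          field_simp
          ring
      _ ≤ 128 * (s * (X : ℝ) ^ 2 + 1 / (s * (X : ℝ))) := by
          have : 0 ≤ 1 / (s * (X : ℝ)) := by positivity
          linarith
  · -- trivial bound
    push Not at hcase
    have h1 : ‖∑ n ∈ Finset.Icc ((X : ℤ) + 1) (Y : ℤ), ee (β * (n : ℝ) ^ 4 + η * (n : ℝ))‖ ≤
        (X : ℝ) := by
      refine (norm_sum_le _ _).trans ?_
      rw [Finset.sum_congr rfl (fun n _ => norm_ee _), Finset.sum_const, nsmul_eq_mul, mul_one,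
        Int.card_Icc]
      have : (((Y : ℤ) + 1 - ((X : ℤ) + 1)).toNat : ℤ) ≤ (X : ℤ) := by omega
      exact_mod_cast this
    refine h1.trans ?_
    have h2 : 1 < 7 * (s * X) := by
      by_contra hcon
      push Not at hcon
      have h3 : 0 ≤ s * X := by positivity
      have h4 : 12 * β * (X : ℝ) ^ 2 = 12 * (s * X) ^ 2 := by rw [← hss]; ring
      rw [h4] at hcase
      nlinarith
    have h3 : 0 ≤ 1 / (s * (X : ℝ)) := by positivity
    nlinarith [mul_pos hs0 hX0]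

/-- Row AVD. -/
theorem avd : AvdStmt := by
  refine ⟨128, by norm_num, ?_⟩
  intro X Y β η hX hXY hY hβ
  rcases lt_or_gt_of_ne hβ with h | h
  · have h1 := avd_pos H17.kul X Y (-β) (-η) hX hXY hY (by linarith)
    rw [W_neg, W_neg, ← map_sub, RCLike.norm_conj] at h1
    rw [abs_of_neg h]
    exact h1
  · rw [abs_of_pos h]
    exact avd_pos H17.kul X Y β η hX hXY hY h

end Pool.Agent.K4W.H31
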